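import Pool.Agent.W662.CB.Stmts

/-! Project CB (helper662), part A1: uniqueness on a strip (helper557). -/

set_option autoImplicit false

namespace Pool.Agent.W557.CB

open Complex Set Filter Topology
open Complex.HadamardThreeLines

theorem a1 : Pool.Agent.W662.CB.S_A1 := by
  rintro G hc hd ⟨C, hC⟩ h0 t
  -- rotate the strip
  have him : ∀ w : ℂ, (I * w).im = w.re := fun w => by simp
  have hmap : MapsTo (fun w : ℂ => I * w) (verticalClosedStrip 0 1)
      {z : ℂ | 0 ≤ z.im ∧ z.im ≤ 1} := by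
    intro w hw
    have hw' : w.re ∈ Icc (0 : ℝ) 1 := hw
    show 0 ≤ (I * w).im ∧ (I * w).im ≤ 1
    rw [him]
    exact hw'
  have hmap' : MapsTo (fun w : ℂ => I * w) (verticalStrip 0 1)
      {z : ℂ | 0 < z.im ∧ z.im < 1} := by
    intro w hw
    have hw' : w.re ∈ Ioo (0 : ℝ) 1 := hw
    show 0 < (I * w).im ∧ (I * w).im < 1
    rw [him]
    exact hw'
  have hcont : ContinuousOn (fun w : ℂ => G (I * w)) (verticalClosedStrip 0 1) :=
    hc.comp (continuous_const.mul continuous_id).continuousOn hmap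
  have hdiff : DifferentiableOn ℂ (fun w : ℂ => G (I * w)) (verticalStrip 0 1) :=
    hd.comp ((differentiable_const I).mul differentiable_id).differentiableOn hmap'
  have hcl : closure (verticalStrip 0 1) ⊆ verticalClosedStrip 0 1 :=
    closure_minimal (preimage_mono Ioo_subset_Icc_self) (isClosed_Icc.preimage continuous_re)
  have hDC : DiffContOnCl ℂ (fun w : ℂ => G (I * w)) (verticalStrip 0 1) :=
    ⟨hdiff, hcont.mono hcl⟩
  have hb : ∀ w ∈ verticalClosedStrip 0 1, ‖G (I * w)‖ ≤ C := by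
    intro w hw
    have := hmap hw
    exact hC _ this.1 this.2
  have hB : BddAbove ((norm ∘ fun w : ℂ => G (I * w)) '' verticalClosedStrip 0 1) := by
    refine ⟨C, ?_⟩
    rintro _ ⟨w, hw, rfl⟩
    exact hb w hw
  have hzero : ∀ y ∈ Ioo (0 : ℝ) 1, G (t + y * I) = 0 := by
    intro y hy
    have hw : ((y : ℂ) - t * I).re = y := by simp
    have hmem : ((y : ℂ) - t * I) ∈ verticalClosedStrip 0 1 := by
      show ((y : ℂ) - t * I).re ∈ Icc (0 : ℝ) 1
      rw [hw]
      exact Ioo_subset_Icc_self hy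
    have h1 := norm_le_interp_of_mem_verticalClosedStrip₀₁' (fun w : ℂ => G (I * w))
      (z := (y : ℂ) - t * I) (a := 0) (b := C) hmem hDC hB ?_ ?_
    · rw [hw, Real.zero_rpow (by linarith [hy.2]), zero_mul] at h1
      have h2 : I * ((y : ℂ) - t * I) = t + y * I := by
        linear_combination (-(t : ℂ)) * Complex.I_mul_I
      rw [h2] at h1
      exact norm_le_zero_iff.1 h1
    · intro w hw0
      have hw0' : w.re = 0 := hw0
      have h3 : I * w = ((-w.im : ℝ) : ℂ) := by
        apply Complex.ext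
        · simp
        · simp [hw0']
      show ‖G (I * w)‖ ≤ 0
      rw [h3, h0, norm_zero]
    · intro w hw1
      have hw1' : w.re = 1 := hw1
      refine hb w ?_
      show w.re ∈ Icc (0 : ℝ) 1
      rw [hw1']
      exact ⟨zero_le_one, le_rfl⟩
  -- the boundary value
  have hct : ContinuousWithinAt G {z : ℂ | 0 ≤ z.im ∧ z.im ≤ 1} (t + I) := hc _ (by simp)
  have hpath : Tendsto (fun y : ℝ => (t : ℂ) + y * I) (𝓝[<] 1)
      (𝓝[{z : ℂ | 0 ≤ z.im ∧ z.im ≤ 1}] (t + I)) := by
    refine tendsto_nhdsWithin_iff.2 ⟨?_, ?_⟩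
    · have h4 : Continuous (fun y : ℝ => (t : ℂ) + y * I) := by fun_prop
      have h5 := h4.tendsto 1
      simp only [ofReal_one, one_mul] at h5
      exact h5.mono_left nhdsWithin_le_nhds
    · have h6 : Ioo (0 : ℝ) 1 ∈ 𝓝[<] (1 : ℝ) := Ioo_mem_nhdsLT zero_lt_one
      filter_upwards [h6] with y hy
      simp only [mem_setOf_eq, add_im, ofReal_im, mul_im, ofReal_re, I_im, mul_one, I_re, mul_zero,
        add_zero, zero_add]
      exact ⟨hy.1.le, hy.2.le⟩
  have h7 := hct.tendsto.comp hpath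
  have h8 : Tendsto (G ∘ fun y : ℝ => (t : ℂ) + y * I) (𝓝[<] 1) (𝓝 0) := by
    refine tendsto_const_nhds.congr' ?_
    have h6 : Ioo (0 : ℝ) 1 ∈ 𝓝[<] (1 : ℝ) := Ioo_mem_nhdsLT zero_lt_one
    filter_upwards [h6] with y hy
    exact (hzero y hy).symm
  exact tendsto_nhds_unique h7 h8

end Pool.Agent.W557.CB
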